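import Mathlib

set_option autoImplicit false

/-! Power sums of complex numbers in the unit disc cannot be one-sided on long blocks. -/

open Finset

namespace Pool.Agent.X282.Li

/-- the sum of a geometric progression over a block of integers is bounded if the ratio is in the
closed unit disc and different from one -/
lemma geom_block {t : ℂ} (ht : ‖t‖ ≤ 1) (h1 : t ≠ 1) (N L : ℕ) :
    ‖∑ n ∈ Finset.range L, t ^ (N + n)‖ ≤ 2 / ‖1 - t‖ := by
  have h2 : (1 - t) ≠ 0 := sub_ne_zero.2 (Ne.symm h1)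
  have h3 : 0 < ‖1 - t‖ := norm_pos_iff.2 h2
  have h4 : (∑ n ∈ Finset.range L, t ^ (N + n)) * (1 - t) = t ^ N * (1 - t ^ L) := by
    have : ∑ n ∈ Finset.range L, t ^ (N + n) = t ^ N * ∑ n ∈ Finset.range L, t ^ n := by
      rw [Finset.mul_sum]
      exact Finset.sum_congr rfl fun n _ => pow_add t N n
    rw [this, mul_assoc, geom_sum_mul_neg]
  rw [le_div_iff₀ h3, ← norm_mul, h4, norm_mul, norm_pow]
  have h5 : ‖t‖ ^ N ≤ 1 := pow_le_one₀ (norm_nonneg _) ht
  have h6 : ‖1 - t ^ L‖ ≤ 2 := by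
    refine (norm_sub_le _ _).trans ?_
    rw [norm_one, norm_pow]
    have := pow_le_one₀ (n := L) (norm_nonneg t) ht
    linarith
  calc ‖t‖ ^ N * ‖1 - t ^ L‖ ≤ 1 * 2 := mul_le_mul h5 h6 (norm_nonneg _) zero_le_one
    _ = 2 := one_mul 2

/-- a lower bound which also holds for the ratio one -/
lemma geom_low {t : ℂ} (ht : ‖t‖ ≤ 1) : ∃ B : ℝ, 0 ≤ B ∧ ∀ N L : ℕ,
    -B ≤ (∑ n ∈ Finset.range L, t ^ (N + n)).re := by
  by_cases h1 : t = 1
  · refine ⟨0, le_rfl, fun N L => ?_⟩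
    subst h1
    simp
  · refine ⟨2 / ‖1 - t‖, by positivity, fun N L => ?_⟩
    have h2 := geom_block ht h1 N L
    have h3 := (abs_le.1 ((Complex.abs_re_le_norm _).trans h2)).1
    exact h3

lemma re_mul_re (a b : ℂ) : a.re * b.re = ((a * b).re + (a * (starRingEnd ℂ) b).re) / 2 := by
  simp only [Complex.mul_re, Complex.conj_re, Complex.conj_im]
  ring

/-- the correlation of the power sum with the power of a member on the unit circle -/
lemma corr_low {ι : Type*} [Fintype ι] (t : ι → ℂ) (ht : ∀ i, ‖t i‖ ≤ 1) (i0 : ι) (h0 : ‖t i0‖ = 1) :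
    ∃ B : ℝ, 0 ≤ B ∧ ∀ N L : ℕ, (L : ℝ) / 2 - B ≤
      ∑ n ∈ Finset.range L, (∑ i, t i ^ (N + n)).re * (t i0 ^ (N + n)).re := by
  classical
  have hp : ∀ i, ‖t i * t i0‖ ≤ 1 := fun i => by
    rw [norm_mul, h0, mul_one]; exact ht i
  have hq : ∀ i, ‖t i * (starRingEnd ℂ) (t i0)‖ ≤ 1 := fun i => by
    rw [norm_mul, RCLike.norm_conj, h0, mul_one]; exact ht i
  choose B1 hB1 h1 using fun i => geom_low (hp i)
  choose B2 hB2 h2 using fun i => geom_low (hq i)
  refine ⟨∑ i, (B1 i + B2 i), Finset.sum_nonneg fun i _ => add_nonneg (hB1 i) (hB2 i), fun N L => ?_⟩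
  have e1 : ∑ n ∈ Finset.range L, (∑ i, t i ^ (N + n)).re * (t i0 ^ (N + n)).re =
      ∑ i, ((∑ n ∈ Finset.range L, (t i * t i0) ^ (N + n)).re +
        (∑ n ∈ Finset.range L, (t i * (starRingEnd ℂ) (t i0)) ^ (N + n)).re) / 2 := by
    have : ∀ n, (∑ i, t i ^ (N + n)).re * (t i0 ^ (N + n)).re =
        ∑ i, (((t i * t i0) ^ (N + n)).re +
          ((t i * (starRingEnd ℂ) (t i0)) ^ (N + n)).re) / 2 := by
      intro n
      rw [Complex.re_sum, Finset.sum_mul]
      refine Finset.sum_congr rfl fun i _ => ?_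
      rw [re_mul_re, mul_pow, mul_pow, map_pow]
    simp only [this]
    rw [Finset.sum_comm]
    refine Finset.sum_congr rfl fun i _ => ?_
    rw [← Finset.sum_div, Finset.sum_add_distrib, Complex.re_sum, Complex.re_sum]
  rw [e1]
  have e2 : ∀ i, -(B1 i + B2 i) ≤ ((∑ n ∈ Finset.range L, (t i * t i0) ^ (N + n)).re +
        (∑ n ∈ Finset.range L, (t i * (starRingEnd ℂ) (t i0)) ^ (N + n)).re) / 2 := by
    intro i
    have a1 := h1 i N L
    have a2 := h2 i N L
    have a3 := hB1 i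
    have a4 := hB2 i
    linarith
  have e3 : (L : ℝ) / 2 - (B1 i0 + B2 i0) ≤ ((∑ n ∈ Finset.range L, (t i0 * t i0) ^ (N + n)).re +
        (∑ n ∈ Finset.range L, (t i0 * (starRingEnd ℂ) (t i0)) ^ (N + n)).re) / 2 := by
    have a1 := h1 i0 N L
    have a3 := hB1 i0
    have a4 := hB2 i0
    have a5 : t i0 * (starRingEnd ℂ) (t i0) = 1 := by
      rw [Complex.mul_conj, Complex.normSq_eq_norm_sq, h0]
      norm_num
    have a6 : (∑ n ∈ Finset.range L, (t i0 * (starRingEnd ℂ) (t i0)) ^ (N + n)).re = L := by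
      rw [a5]
      simp
    rw [a6]
    linarith
  have e4 : ∑ i, (-(B1 i + B2 i) + if i = i0 then (L : ℝ) / 2 else 0) ≤
      ∑ i, ((∑ n ∈ Finset.range L, (t i * t i0) ^ (N + n)).re +
        (∑ n ∈ Finset.range L, (t i * (starRingEnd ℂ) (t i0)) ^ (N + n)).re) / 2 := by
    refine Finset.sum_le_sum fun i _ => ?_
    split_ifs with h
    · subst h
      linarith
    · have := e2 i
      linarith
  rw [Finset.sum_add_distrib, Finset.sum_ite_eq' Finset.univ i0, if_pos (Finset.mem_univ _),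
    Finset.sum_neg_distrib] at e4
  linarith

/-- **No long block on which a power sum is small from above.** -/
theorem no_upper {ι : Type*} [Fintype ι] (t : ι → ℂ) (ht : ∀ i, ‖t i‖ ≤ 1) (i0 : ι)
    (h0 : ‖t i0‖ = 1) : ∃ L0 : ℕ, ∀ N L : ℕ, L0 ≤ L →
      ∃ n < L, 1 / 8 < (∑ i, t i ^ (N + n)).re := by
  classical
  obtain ⟨B, hB, h1⟩ := corr_low t ht i0 h0
  choose B' hB' h2 using fun i => geom_low (ht i)
  refine ⟨⌊4 * (B + ∑ i, B' i)⌋₊ + 1, fun N L hL => ?_⟩
  by_contra hcon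
  push Not at hcon
  have hL1 : 4 * (B + ∑ i, B' i) < L := by
    have := Nat.lt_floor_add_one (4 * (B + ∑ i, B' i))
    have h3 : ((⌊4 * (B + ∑ i, B' i)⌋₊ + 1 : ℕ) : ℝ) ≤ L := by exact_mod_cast hL
    push_cast at h3
    linarith
  have h3 : ∑ n ∈ Finset.range L, (∑ i, t i ^ (N + n)).re * (1 + (t i0 ^ (N + n)).re) ≤
      ∑ n ∈ Finset.range L, (1 / 4 : ℝ) := by
    refine Finset.sum_le_sum fun n hn => ?_
    have h4 := hcon n (Finset.mem_range.1 hn)
    have h5 : |(t i0 ^ (N + n)).re| ≤ 1 := by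
      refine (Complex.abs_re_le_norm _).trans ?_
      rw [norm_pow, h0, one_pow]
    have h6 := abs_le.1 h5
    nlinarith
  have h4 : ∑ n ∈ Finset.range L, (∑ i, t i ^ (N + n)).re * (1 + (t i0 ^ (N + n)).re) =
      ∑ i, (∑ n ∈ Finset.range L, t i ^ (N + n)).re +
      ∑ n ∈ Finset.range L, (∑ i, t i ^ (N + n)).re * (t i0 ^ (N + n)).re := by
    simp only [mul_add, mul_one]
    rw [Finset.sum_add_distrib]
    congr 1
    simp only [Complex.re_sum]
    rw [Finset.sum_comm]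
  have h5 : -∑ i, B' i ≤ ∑ i, (∑ n ∈ Finset.range L, t i ^ (N + n)).re := by
    rw [← Finset.sum_neg_distrib]
    exact Finset.sum_le_sum fun i _ => h2 i N L
  have h6 := h1 N L
  rw [Finset.sum_const, Finset.card_range, nsmul_eq_mul] at h3
  linarith

/-- **No long block on which a power sum is small from below**, if no ratio is one. -/
theorem no_lower {ι : Type*} [Fintype ι] (t : ι → ℂ) (ht : ∀ i, ‖t i‖ ≤ 1) (ht1 : ∀ i, t i ≠ 1) (i0 : ι)
    (h0 : ‖t i0‖ = 1) : ∃ L0 : ℕ, ∀ N L : ℕ, L0 ≤ L →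
      ∃ n < L, (∑ i, t i ^ (N + n)).re < -(1 / 8) := by
  classical
  obtain ⟨B, hB, h1⟩ := corr_low t ht i0 h0
  refine ⟨⌊4 * (B + ∑ i, 2 / ‖1 - t i‖)⌋₊ + 1, fun N L hL => ?_⟩
  by_contra hcon
  push Not at hcon
  have hL1 : 4 * (B + ∑ i, 2 / ‖1 - t i‖) < L := by
    have := Nat.lt_floor_add_one (4 * (B + ∑ i, 2 / ‖1 - t i‖))
    have h3 : ((⌊4 * (B + ∑ i, 2 / ‖1 - t i‖)⌋₊ + 1 : ℕ) : ℝ) ≤ L := by exact_mod_cast hL
    push_cast at h3
    linarith
  have h3 : ∑ n ∈ Finset.range L, (-(1 / 4) : ℝ) ≤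
      ∑ n ∈ Finset.range L, (∑ i, t i ^ (N + n)).re * (1 - (t i0 ^ (N + n)).re) := by
    refine Finset.sum_le_sum fun n hn => ?_
    have h4 := hcon n (Finset.mem_range.1 hn)
    have h5 : |(t i0 ^ (N + n)).re| ≤ 1 := by
      refine (Complex.abs_re_le_norm _).trans ?_
      rw [norm_pow, h0, one_pow]
    have h6 := abs_le.1 h5
    nlinarith
  have h4 : ∑ n ∈ Finset.range L, (∑ i, t i ^ (N + n)).re * (1 - (t i0 ^ (N + n)).re) =
      ∑ i, (∑ n ∈ Finset.range L, t i ^ (N + n)).re -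
      ∑ n ∈ Finset.range L, (∑ i, t i ^ (N + n)).re * (t i0 ^ (N + n)).re := by
    simp only [mul_sub, mul_one]
    rw [Finset.sum_sub_distrib]
    congr 1
    simp only [Complex.re_sum]
    rw [Finset.sum_comm]
  have h5 : ∑ i, (∑ n ∈ Finset.range L, t i ^ (N + n)).re ≤ ∑ i, 2 / ‖1 - t i‖ := by
    refine Finset.sum_le_sum fun i _ => ?_
    exact (le_abs_self _).trans ((Complex.abs_re_le_norm _).trans (geom_block (ht i) (ht1 i) N L))
  have h6 := h1 N L
  rw [Finset.sum_const, Finset.card_range, nsmul_eq_mul] at h3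
  linarith

end Pool.Agent.X282.Li
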