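import Mathlib

set_option autoImplicit false

/-! Taylor coefficients of logarithmic derivatives of products of Moebius factors. -/

open Filter Topology Metric

namespace Pool.Agent.X282.Li

/-- the `n`-th Taylor coefficient at the origin -/
noncomputable def cf (f : ℂ → ℂ) (n : ℕ) : ℂ := iteratedDeriv n f 0 / (n.factorial : ℂ)

lemma cf_congr {f g : ℂ → ℂ} (h : f =ᶠ[𝓝 0] g) (n : ℕ) : cf f n = cf g n := by
  unfold cf
  rw [h.iteratedDeriv_eq n]

lemma cf_add {f g : ℂ → ℂ} (hf : AnalyticAt ℂ f 0) (hg : AnalyticAt ℂ g 0) (n : ℕ) :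
    cf (fun z => f z + g z) n = cf f n + cf g n := by
  unfold cf
  have h := iteratedDeriv_add (n := n) (hf.contDiffAt (n := n)) (hg.contDiffAt (n := n))
  have e : (f + g) = fun z => f z + g z := rfl
  rw [← e, h, add_div]

lemma cf_sub {f g : ℂ → ℂ} (hf : AnalyticAt ℂ f 0) (hg : AnalyticAt ℂ g 0) (n : ℕ) :
    cf (fun z => f z - g z) n = cf f n - cf g n := by
  unfold cf
  have h := iteratedDeriv_sub (n := n) (hf.contDiffAt (n := n)) (hg.contDiffAt (n := n))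
  have e : (f - g) = fun z => f z - g z := rfl
  rw [← e, h, sub_div]

lemma cf_sum {ι : Type*} (s : Finset ι) {f : ι → ℂ → ℂ} (hf : ∀ i ∈ s, AnalyticAt ℂ (f i) 0) (n : ℕ) :
    cf (fun z => ∑ i ∈ s, f i z) n = ∑ i ∈ s, cf (f i) n := by
  unfold cf
  rw [iteratedDeriv_fun_sum fun i hi => (hf i hi).contDiffAt (n := n), Finset.sum_div]

lemma cf_const_mul (c : ℂ) (f : ℂ → ℂ) (n : ℕ) : cf (fun z => c * f z) n = c * cf f n := by
  unfold cf
  rw [iteratedDeriv_const_mul_field, mul_div_assoc]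

lemma cf_geo (u : ℂ) (n : ℕ) : cf (fun z => (1 - u * z)⁻¹) n = u ^ n := by
  unfold cf
  rw [iteratedDeriv_eq_iterate]
  have e : (fun z : ℂ => (1 - u * z)⁻¹) = fun z => ((-u) * z + 1)⁻¹ := by
    funext z
    congr 1
    ring
  rw [e, iter_deriv_inv_linear]
  have hn : (n.factorial : ℂ) ≠ 0 := by exact_mod_cast n.factorial_ne_zero
  simp only [mul_zero, zero_add, one_zpow, mul_one]
  rw [neg_pow u n]
  field_simp
  rw [← pow_mul, mul_comm n 2, pow_mul]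
  norm_num

lemma cf_norm_le {f : ℂ → ℂ} {R C : ℝ} (hR : 0 < R) (hf : DiffContOnCl ℂ f (ball 0 R))
    (hC : ∀ z ∈ sphere (0 : ℂ) R, ‖f z‖ ≤ C) (n : ℕ) : ‖cf f n‖ ≤ C / R ^ n := by
  have h := Complex.norm_iteratedDeriv_le_of_forall_mem_sphere_norm_le n hR hf hC
  unfold cf
  have hn : (0 : ℝ) < n.factorial := by exact_mod_cast n.factorial_pos
  rw [norm_div, Complex.norm_natCast, div_le_iff₀ hn]
  refine h.trans (le_of_eq ?_)
  ring

/-- the map of the unit disc onto the half-plane `Re s > τ`, taking `0` to `1` -/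
noncomputable def sm (τ : ℝ) (z : ℂ) : ℂ := τ + (1 - τ) * (1 + z) / (1 - z)

/-- the image of the zero `ρ`: the reciprocal of the preimage of `ρ` under `sm` -/
noncomputable def uu (τ : ℝ) (ρ : ℂ) : ℂ := (ρ + 1 - 2 * τ) / (ρ - 1)

lemma sm_zero (τ : ℝ) : sm τ 0 = 1 := by
  unfold sm
  simp

lemma ne_one_of_norm {z : ℂ} (hz : ‖z‖ < 1) : (1 : ℂ) - z ≠ 0 := by
  intro h
  have : z = 1 := by linear_combination -h
  rw [this, norm_one] at hz
  exact lt_irrefl _ hz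

lemma sm_sub (τ : ℝ) {ρ z : ℂ} (hz : (1 : ℂ) - z ≠ 0) (hρ : ρ ≠ 1) :
    sm τ z - ρ = (1 - ρ) * ((1 - uu τ ρ * z) * (1 - z)⁻¹) := by
  have h1 : ρ - 1 ≠ 0 := sub_ne_zero.2 hρ
  unfold sm uu
  field_simp
  ring

lemma an_lin (u : ℂ) : AnalyticAt ℂ (fun z => (1 - u * z)⁻¹) 0 := by
  have : AnalyticAt ℂ (fun z : ℂ => 1 - u * z) 0 := by fun_prop
  exact this.inv (by simp)

lemma lin_ne (u : ℂ) : ∀ᶠ z : ℂ in 𝓝 0, 1 - u * z ≠ 0 := by
  have h : ContinuousAt (fun z : ℂ => 1 - u * z) 0 := by fun_prop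
  exact h.eventually_ne (by simp)

lemma logDeriv_factor (τ : ℝ) {ρ : ℂ} (hρ : ρ ≠ 1) :
    (logDeriv fun z => sm τ z - ρ) =ᶠ[𝓝 0]
      fun z => (-(uu τ ρ)) * (1 - uu τ ρ * z)⁻¹ + (1 - 1 * z)⁻¹ := by
  have h1 := lin_ne (uu τ ρ)
  have h2 := lin_ne 1
  have h3 := h2.eventually_nhds
  filter_upwards [h1, h2, h3] with z hz1 hz2 hz3
  have e : (fun z => sm τ z - ρ) =ᶠ[𝓝 z] fun z => (1 - ρ) * ((1 - uu τ ρ * z) * (1 - 1 * z)⁻¹) := by
    filter_upwards [hz3] with y hy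
    rw [one_mul] at hy
    rw [sm_sub τ hy hρ, one_mul]
  have hd1 : HasDerivAt (fun z : ℂ => 1 - uu τ ρ * z) (-(uu τ ρ)) z := by
    have := ((hasDerivAt_id z).const_mul (uu τ ρ)).const_sub 1
    simpa using this
  have hd2 : HasDerivAt (fun z : ℂ => 1 - 1 * z) (-1) z := by
    have := ((hasDerivAt_id z).const_mul (1 : ℂ)).const_sub 1
    simpa using this
  have hd3 := hd2.inv hz2
  have hd4 := (hd1.mul hd3).const_mul (1 - ρ)
  have hρ1 : (1 - ρ) ≠ 0 := sub_ne_zero.2 (Ne.symm hρ)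
  rw [logDeriv_apply, e.deriv_eq, e.eq_of_nhds]
  have hd5 : deriv (fun z => (1 - ρ) * ((1 - uu τ ρ * z) * (1 - 1 * z)⁻¹)) z =
      (1 - ρ) * (-(uu τ ρ) * (1 - 1 * z)⁻¹ + (1 - uu τ ρ * z) * (-(-1) / (1 - 1 * z) ^ 2)) := hd4.deriv
  rw [hd5]
  simp only [one_mul] at hz2 ⊢
  field_simp

lemma cf_factor (τ : ℝ) {ρ : ℂ} (hρ : ρ ≠ 1) (n : ℕ) :
    cf (logDeriv fun z => sm τ z - ρ) n = 1 - uu τ ρ ^ (n + 1) := by
  rw [cf_congr (logDeriv_factor τ hρ), cf_add, cf_const_mul, cf_geo, cf_geo]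
  · rw [one_pow, pow_succ]; ring
  · exact analyticAt_const.mul (an_lin _)
  · exact an_lin 1

lemma an_sm (τ : ℝ) {z : ℂ} (hz : (1 : ℂ) - z ≠ 0) : AnalyticAt ℂ (sm τ) z := by
  unfold sm
  have h1 : AnalyticAt ℂ (fun z : ℂ => 1 - z) z := by fun_prop
  have h2 : AnalyticAt ℂ (fun z : ℂ => (1 - (τ : ℂ)) * (1 + z)) z := by fun_prop
  exact analyticAt_const.add (h2.div h1 hz)

lemma an_logDeriv {f : ℂ → ℂ} {z : ℂ} (hf : AnalyticAt ℂ f z) (h0 : f z ≠ 0) :
    AnalyticAt ℂ (logDeriv f) z := by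
  have : logDeriv f = fun z => deriv f z / f z := by
    funext z
    exact logDeriv_apply f z
  rw [this]
  exact hf.deriv.div hf h0

/-- the coefficient for a product -/
lemma cf_mul {f g : ℂ → ℂ} (hf : AnalyticAt ℂ f 0) (hg : AnalyticAt ℂ g 0) (hf0 : f 0 ≠ 0) (hg0 : g 0 ≠ 0)
    (n : ℕ) : cf (logDeriv fun z => f z * g z) n = cf (logDeriv f) n + cf (logDeriv g) n := by
  rw [← cf_add (an_logDeriv hf hf0) (an_logDeriv hg hg0)]
  refine cf_congr ?_ n
  filter_upwards [hf.continuousAt.eventually_ne hf0, hg.continuousAt.eventually_ne hg0,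
    hf.eventually_analyticAt, hg.eventually_analyticAt] with z h1 h2 h3 h4
  exact logDeriv_mul z h1 h2 h3.differentiableAt h4.differentiableAt

lemma cf_prod {ι : Type*} (s : Finset ι) {f : ι → ℂ → ℂ} (hf : ∀ i ∈ s, AnalyticAt ℂ (f i) 0)
    (hf0 : ∀ i ∈ s, f i 0 ≠ 0) (n : ℕ) :
    cf (logDeriv fun z => ∏ i ∈ s, f i z) n = ∑ i ∈ s, cf (logDeriv (f i)) n := by
  classical
  induction s using Finset.induction_on with
  | empty =>
    simp only [Finset.prod_empty, Finset.sum_empty]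
    unfold cf
    have : (logDeriv fun _ : ℂ => (1 : ℂ)) = fun _ => 0 := by
      funext z
      rw [logDeriv_apply]
      simp
    rw [this]
    simp
  | insert a s ha ih =>
    have e : (fun z => ∏ i ∈ insert a s, f i z) = fun z => f a z * ∏ i ∈ s, f i z := by
      funext z
      rw [Finset.prod_insert ha]
    rw [e, Finset.sum_insert ha, cf_mul (hf a (Finset.mem_insert_self _ _))
      (Finset.analyticAt_fun_prod s fun i hi => hf i (Finset.mem_insert_of_mem hi))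
      (hf0 a (Finset.mem_insert_self _ _))
      (Finset.prod_ne_zero_iff.2 fun i hi => hf0 i (Finset.mem_insert_of_mem hi)),
      ih (fun i hi => hf i (Finset.mem_insert_of_mem hi)) (fun i hi => hf0 i (Finset.mem_insert_of_mem hi))]

lemma cf_const_left {f : ℂ → ℂ} {c : ℂ} (hc : c ≠ 0) (n : ℕ) :
    cf (logDeriv fun z => c * f z) n = cf (logDeriv f) n := by
  congr 1
  funext z
  exact logDeriv_const_mul z c hc

/-- `(sm τ z - 1/2)²` -/
noncomputable def ww (τ : ℝ) (z : ℂ) : ℂ := (sm τ z - 1 / 2) ^ 2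

/-- the two zeros belonging to `x` -/
noncomputable def rp (x : ℂ) : ℂ := 1 / 2 + x ^ (1 / 2 : ℂ)
noncomputable def rm (x : ℂ) : ℂ := 1 / 2 - x ^ (1 / 2 : ℂ)

lemma sqrt_sq (x : ℂ) : (x ^ (1 / 2 : ℂ)) ^ 2 = x := by
  have := Complex.cpow_nat_inv_pow x (n := 2) (by norm_num)
  simpa using this

lemma ww_sub (τ : ℝ) (x z : ℂ) : ww τ z - x = (sm τ z - rp x) * (sm τ z - rm x) := by
  unfold ww rp rm
  linear_combination sqrt_sq x

lemma rp_ne {x : ℂ} (hx : x ≠ 1 / 4) : rp x ≠ 1 := by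
  intro h
  apply hx
  have : x ^ (1 / 2 : ℂ) = 1 / 2 := by unfold rp at h; linear_combination h
  rw [← sqrt_sq x, this]
  norm_num

lemma rm_ne {x : ℂ} (hx : x ≠ 1 / 4) : rm x ≠ 1 := by
  intro h
  apply hx
  have : x ^ (1 / 2 : ℂ) = -(1 / 2) := by unfold rm at h; linear_combination -h
  rw [← sqrt_sq x, this]
  norm_num

lemma an_ww (τ : ℝ) {z : ℂ} (hz : (1 : ℂ) - z ≠ 0) : AnalyticAt ℂ (ww τ) z :=
  ((an_sm τ hz).sub analyticAt_const).pow 2

lemma ww_zero (τ : ℝ) : ww τ 0 = 1 / 4 := by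
  unfold ww
  rw [sm_zero]
  norm_num

lemma cf_root (τ : ℝ) {x : ℂ} (hx : x ≠ 1 / 4) (n : ℕ) :
    cf (logDeriv fun z => ww τ z - x) n = (1 - uu τ (rp x) ^ (n + 1)) + (1 - uu τ (rm x) ^ (n + 1)) := by
  have e : (fun z => ww τ z - x) = fun z => (sm τ z - rp x) * (sm τ z - rm x) := by
    funext z
    exact ww_sub τ x z
  have h0 : (1 : ℂ) - 0 ≠ 0 := by norm_num
  rw [e, cf_mul ((an_sm τ h0).fun_sub analyticAt_const) ((an_sm τ h0).fun_sub analyticAt_const),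
    cf_factor τ (rp_ne hx), cf_factor τ (rm_ne hx)]
  · rw [sm_zero]; exact sub_ne_zero.2 (Ne.symm (rp_ne hx))
  · rw [sm_zero]; exact sub_ne_zero.2 (Ne.symm (rm_ne hx))

/-- a polynomial as a product over its roots -/
lemma poly_factor {P : Polynomial ℝ} (hP : P ≠ 0) : ∃ (m : ℕ) (r : Fin m → ℂ) (c : ℂ), c ≠ 0 ∧
    ∀ x : ℂ, Polynomial.aeval x P = c * ∏ i, (x - r i) := by
  set Q : Polynomial ℂ := P.map (algebraMap ℝ ℂ) with hQ
  have hQ0 : Q ≠ 0 := by
    rw [hQ]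
    exact (Polynomial.map_ne_zero_iff (algebraMap ℝ ℂ).injective).2 hP
  obtain ⟨l, hl⟩ := Quot.exists_rep Q.roots
  refine ⟨l.length, l.get, Q.leadingCoeff, Polynomial.leadingCoeff_ne_zero.2 hQ0, fun x => ?_⟩
  have h1 := (IsAlgClosed.splits Q).eq_prod_roots
  have h2 : Polynomial.aeval x P = Q.eval x := by
    rw [hQ, Polynomial.eval_map_algebraMap]
  have h3 : Q.roots = (l : Multiset ℂ) := hl.symm
  rw [h2]
  conv_lhs => rw [h1]
  rw [Polynomial.eval_mul, Polynomial.eval_C, h3, Multiset.map_coe, Multiset.prod_coe,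
    Polynomial.eval_list_prod, List.map_map]
  congr 1
  have h4 : List.map (Polynomial.eval x ∘ fun a => Polynomial.X - Polynomial.C a) l =
      List.map (fun a => x - a) l := by
    apply List.map_congr_left
    intro a _
    simp
  rw [h4, ← List.prod_ofFn]
  congr 1
  apply List.ext_get
  · simp
  · intro n h5 h6
    simp

lemma cf_poly (τ : ℝ) {m : ℕ} {r : Fin m → ℂ} (hr : ∀ i, r i ≠ 1 / 4) {c : ℂ} (hc : c ≠ 0) (n : ℕ) :
    cf (logDeriv fun z => c * ∏ i, (ww τ z - r i)) n =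
      ∑ i, ((1 - uu τ (rp (r i)) ^ (n + 1)) + (1 - uu τ (rm (r i)) ^ (n + 1))) := by
  have h0 : (1 : ℂ) - 0 ≠ 0 := by norm_num
  rw [cf_const_left hc, cf_prod Finset.univ (fun i _ => (an_ww τ h0).fun_sub analyticAt_const)]
  · exact Finset.sum_congr rfl fun i _ => cf_root τ (hr i) n
  · intro i _
    rw [ww_zero]
    exact sub_ne_zero.2 (Ne.symm (hr i))

end Pool.Agent.X282.Li
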